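import Pool.Agent.R41.OddJoin

/-!
MP_b4b0f8, Q1: every `(2 k + 1)`-regular graph on `n` vertices decomposes into at most `n - 1`
subgraphs, each of which is 2-regular or a single edge.
-/

set_option autoImplicit false

namespace Pool.Agent.Results.MP_b4b0f8_co.OddRegular

open SimpleGraph

/-- The subgraph with edge set `E` (and the vertices incident to edges of `E`) is 2-regular: every
vertex incident to an edge of `E` is incident to exactly two edges of `E`. -/
def IsTwoRegular {V : Type} (E : Set (Sym2 V)) : Prop :=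
  ∀ v : V, (∃ e ∈ E, v ∈ e) → {e ∈ E | v ∈ e}.ncard = 2

/-- `G` has a decomposition into `m` subgraphs (a partition of the edge set into `m` nonempty
parts), each of which is either 2-regular or a single edge. -/
def HasDecomposition {V : Type} (G : SimpleGraph V) (m : ℕ) : Prop :=
  ∃ P : Fin m → Set (Sym2 V), (∀ i, (P i).Nonempty) ∧ (∀ i j, i ≠ j → Disjoint (P i) (P j)) ∧
    (⋃ i, P i) = G.edgeSet ∧ ∀ i, IsTwoRegular (P i) ∨ ∃ e, P i = {e}

/-- `re G` is the least number of parts of such a decomposition. -/
noncomputable def re {V : Type} (G : SimpleGraph V) : ℕ := sInf {m | HasDecomposition G m}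

lemma of_colour {V ι : Type} [DecidableEq V] [DecidableEq ι] (E : Finset (Sym2 V))
    (c : Sym2 V → ι) (Q : Set (Sym2 V) → Prop)
    (h : ∀ i ∈ E.image c, Q {e | e ∈ E ∧ c e = i}) :
    ∃ P : Fin (E.image c).card → Set (Sym2 V), (∀ i, (P i).Nonempty) ∧
      (∀ i j, i ≠ j → Disjoint (P i) (P j)) ∧ (⋃ i, P i) = (E : Set (Sym2 V)) ∧
      ∀ i, Q (P i) := by
  let φ := (E.image c).equivFin
  refine ⟨fun i => {e | e ∈ E ∧ c e = (φ.symm i).1}, fun i => ?_, fun i j hij => ?_, ?_,
    fun i => h _ (φ.symm i).2⟩
  · obtain ⟨e, he, h1⟩ := Finset.mem_image.1 (φ.symm i).2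
    exact ⟨e, he, h1⟩
  · rw [Set.disjoint_left]
    rintro e ⟨_, h1⟩ ⟨_, h2⟩
    apply hij
    have : φ.symm i = φ.symm j := Subtype.ext (h1.symm.trans h2)
    exact φ.symm.injective this
  · ext e
    rw [Set.mem_iUnion, Finset.mem_coe]
    constructor
    · rintro ⟨i, h1, _⟩
      exact h1
    · intro he
      refine ⟨φ ⟨c e, Finset.mem_image_of_mem c he⟩, he, ?_⟩
      rw [Equiv.symm_apply_apply]

/-- **Every `(2 k + 1)`-regular graph `G` on `n ≥ 1` vertices satisfies `re G ≤ n - 1`.** -/
theorem result (V : Type) [Fintype V] [Nonempty V] (G : SimpleGraph V) (k : ℕ)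
    (hreg : ∀ v, (G.neighborSet v).ncard = 2 * k + 1) :
    HasDecomposition G (re G) ∧ re G ≤ Fintype.card V - 1 := by
  classical
  have hreg' : ∀ v, G.degree v = 2 * k + 1 := by
    intro v
    rw [← hreg v, ← SimpleGraph.card_neighborSet_eq_degree, Set.ncard_eq_toFinset_card',
      Set.toFinset_card]
  obtain ⟨M, hM⟩ := Pool.Agent.R41.OJ.exists_minJoin (G := G)
    (fun v => by rw [hreg']; exact ⟨k, rfl⟩)
  have hcard := hM.card_le hreg'
  have hsub : M ⊆ G.edgeFinset := fun e he => SimpleGraph.mem_edgeFinset.2 (hM.sub e he)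
  -- the remaining graph is even
  have hinc : ∀ v, Pool.Agent.R41.OJ.inc (G.edgeFinset \ M) v + Pool.Agent.R41.OJ.inc M v =
      2 * k + 1 := by
    intro v
    rw [← Pool.Agent.R41.OJ.inc_union Finset.sdiff_disjoint, Finset.sdiff_union_of_subset hsub,
      ← Pool.Agent.R41.OJ.deg_eq_inc, hreg']
  obtain ⟨l, hl1, hl2⟩ := Pool.Agent.R41.Even.even_split (G.edgeFinset \ M)
    (fun e he hd => by
      rw [Finset.mem_sdiff, SimpleGraph.mem_edgeFinset] at he
      exact G.not_isDiag_of_mem_edgeSet he.1 hd) k
    (fun v => by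
      have h1 := hinc v
      obtain ⟨a, ha⟩ := hM.odd v
      show Even (Pool.Agent.R41.OJ.inc (G.edgeFinset \ M) v)
      exact ⟨k - a, by omega⟩)
    (fun v => by
      have h1 := hinc v
      have h2 := (hM.odd v).pos
      show Pool.Agent.R41.OJ.inc (G.edgeFinset \ M) v ≤ 2 * k
      omega)
  let c : Sym2 V → ℕ ⊕ Sym2 V := fun e => if e ∈ M then Sum.inr e else Sum.inl (l e)
  obtain ⟨P, hP1, hP2, hP3, hP4⟩ := of_colour G.edgeFinset c
    (fun S => IsTwoRegular S ∨ ∃ e, S = {e}) (by
      intro i hi
      obtain ⟨e0, he0, hc0⟩ := Finset.mem_image.1 hi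
      rcases i with j | e
      · left
        have hS : {e | e ∈ G.edgeFinset ∧ c e = Sum.inl j} =
            {e | e ∈ G.edgeFinset \ M ∧ l e = j} := by
          ext e
          simp only [Set.mem_ofPred_eq, Finset.mem_sdiff, c]
          by_cases he : e ∈ M
          · simp [he]
          · simp [he]
        rw [hS]
        rintro v ⟨e, ⟨he1, he2⟩, hv⟩
        have h1 := hl2 j v ⟨e, he1, he2, hv⟩
        rw [← h1, ← Set.ncard_coe_finset]
        congr 1
        ext e'
        simp only [Set.mem_ofPred_eq, Finset.coe_filter]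
        tauto
      · right
        refine ⟨e, ?_⟩
        ext e'
        simp only [Set.mem_ofPred_eq, Set.mem_singleton_iff]
        constructor
        · rintro ⟨h1, h2⟩
          by_cases he' : e' ∈ M
          · simp only [c, he', if_true] at h2
            exact Sum.inr.inj h2
          · simp only [c, he', if_false] at h2
            exact absurd h2 (by simp)
        · rintro rfl
          by_cases h0 : e0 ∈ M
          · simp only [c, h0, if_true] at hc0
            have h1 := Sum.inr.inj hc0
            subst h1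
            exact ⟨he0, by simp [c, h0]⟩
          · simp only [c, h0, if_false] at hc0
            exact absurd hc0 (by simp))
  have hdec : HasDecomposition G (G.edgeFinset.image c).card := by
    refine ⟨P, hP1, hP2, ?_, hP4⟩
    rw [hP3, SimpleGraph.coe_edgeFinset]
  have hle : (G.edgeFinset.image c).card ≤ M.card + k := by
    have h1 : G.edgeFinset.image c ⊆ (M.image Sum.inr) ∪ ((Finset.range k).image Sum.inl) := by
      intro i hi
      obtain ⟨e, he, rfl⟩ := Finset.mem_image.1 hi
      rw [Finset.mem_union]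
      by_cases h2 : e ∈ M
      · left
        simp only [c, h2, if_true]
        exact Finset.mem_image_of_mem _ h2
      · right
        simp only [c, h2, if_false]
        exact Finset.mem_image_of_mem _ (Finset.mem_range.2 (hl1 e (Finset.mem_sdiff.2 ⟨he, h2⟩)))
    refine (Finset.card_le_card h1).trans ((Finset.card_union_le _ _).trans ?_)
    refine add_le_add Finset.card_image_le (Finset.card_image_le.trans ?_)
    rw [Finset.card_range]
  have hmem : sInf {m | HasDecomposition G m} ∈ {m | HasDecomposition G m} :=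
    Nat.sInf_mem ⟨_, hdec⟩
  have hle2 : sInf {m | HasDecomposition G m} ≤ (G.edgeFinset.image c).card :=
    Nat.sInf_le hdec
  refine ⟨hmem, ?_⟩
  unfold re
  omega

end Pool.Agent.Results.MP_b4b0f8_co.OddRegular
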